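import Pool.Agent.P.MP_caa3d2_al.D.Dehn2

/-!
Every finitely generated subgroup of a one-relator inverse monoid, with any idempotent as its
identity, has a finite presentation with a primitive recursive isoperimetric function.
-/

set_option autoImplicit false

namespace Pool.Agent.Results.MP_caa3d2_al.DehnBound

/-- The formal inverse of a word. -/
def finv {n : ℕ} (w : FreeMonoid (Fin n × Bool)) : FreeMonoid (Fin n × Bool) :=
  FreeMonoid.ofList ((FreeMonoid.toList w).reverse.map (fun p => (p.1, !p.2)))

/-- The congruence defining `Inv⟨A ∣ r = 1⟩`: the Wagner relations and `r = 1`. -/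
def invCon {n : ℕ} (r : FreeMonoid (Fin n × Bool)) : Con (FreeMonoid (Fin n × Bool)) :=
  conGen (fun x y => (∃ u, x = u * finv u * u ∧ y = u) ∨
    (∃ u v, x = u * finv u * v * finv v ∧ y = v * finv v * u * finv u) ∨ (x = r ∧ y = 1))

/-- For elements `g₁, …, g_k` of a subgroup `G` of `Inv⟨A ∣ r = 1⟩` there are finitely many relators among them such
that every relation `w` is a product of at most `f |w|` conjugates of relators and their inverses
by elements of length at most `f |w|`, with `f` primitive recursive. -/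
theorem result (n : ℕ) (r : FreeMonoid (Fin n × Bool)) (G : Type) [Group G]
    (φ : G →ₙ* (invCon r).Quotient) (hφ : Function.Injective φ) (k : ℕ) (g : Fin k → G) :
    ∃ (R : Finset (FreeGroup (Fin k))) (f : ℕ → ℕ), Primrec f ∧
      (∀ s ∈ R, FreeGroup.lift g s = 1) ∧
      ∀ w : FreeGroup (Fin k), FreeGroup.lift g w = 1 →
        ∃ l : List (FreeGroup (Fin k) × FreeGroup (Fin k)), l.length ≤ f w.norm ∧
          (∀ p ∈ l, p.1.norm ≤ f w.norm ∧ (p.2 ∈ R ∨ p.2⁻¹ ∈ R)) ∧
          (l.map fun p => p.1 * p.2 * p.1⁻¹).prod = w :=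
  Pool.Agent.P.MP_caa3d2_al.dehn_of_sub g
    (Pool.Agent.P.MP_caa3d2_al.sub_quot r finv (invCon r) (fun _ => rfl) rfl φ hφ g)

end Pool.Agent.Results.MP_caa3d2_al.DehnBound
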